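import Pool.Agent.H23.LC.Targets

/-!
# Poisson summation with a harmonic polynomial
-/

set_option autoImplicit false

open NumberField NumberField.InfinitePlace NumberField.Units
  NumberField.Units.dirichletUnitTheorem MeasureTheory Set Filter Complex
open scoped nonZeroDivisors ENNReal

namespace Pool.Agent.H50.GLB

open Pool.Agent.H25.HK Pool.Agent.H23.LB Pool.Agent.H23.LC

/-! ### Coefficients of exponential sums in one variable -/

section OneVar

variable {α β : Type*}

theorem pow_le_exp_mul {x : ℝ} (hx : 0 ≤ x) (k : ℕ) : x ^ k ≤ Real.exp (k * x) := by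
  rw [Real.exp_nat_mul]
  exact pow_le_pow_left₀ hx (by linarith [Real.add_one_le_exp x]) k

theorem summ_mul_pow {a z : α → ℂ}
    (hs : ∀ R : ℝ, Summable (fun m => ‖a m‖ * Real.exp (R * ‖z m‖))) (k : ℕ) (R : ℝ) :
    Summable (fun m => ‖a m * z m ^ k‖ * Real.exp (R * ‖z m‖)) := by
  refine Summable.of_nonneg_of_le (fun m => by positivity) (fun m => ?_) (hs (k + R))
  rw [norm_mul, norm_pow, mul_assoc]
  refine mul_le_mul_of_nonneg_left ?_ (norm_nonneg _)
  rw [add_mul, Real.exp_add]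
  exact mul_le_mul_of_nonneg_right (pow_le_exp_mul (norm_nonneg _) k) (Real.exp_pos _).le

theorem summ_exp {a z : α → ℂ}
    (hs : ∀ R : ℝ, Summable (fun m => ‖a m‖ * Real.exp (R * ‖z m‖))) (t : ℂ) :
    Summable (fun m => a m * cexp (t * z m)) := by
  refine Summable.of_norm_bounded (hs ‖t‖) (fun m => ?_)
  rw [norm_mul]
  refine mul_le_mul_of_nonneg_left ?_ (norm_nonneg _)
  rw [Complex.norm_exp]
  refine Real.exp_le_exp.mpr ((Complex.re_le_norm _).trans ?_)
  rw [norm_mul]

theorem deriv_one {a z : α → ℂ}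
    (hs : ∀ R : ℝ, Summable (fun m => ‖a m‖ * Real.exp (R * ‖z m‖))) (t : ℂ) :
    HasDerivAt (fun t => ∑' m, a m * cexp (t * z m)) (∑' m, a m * z m * cexp (t * z m)) t := by
  have hu : Summable (fun m => ‖a m * z m ^ 1‖ * Real.exp ((‖t‖ + 1) * ‖z m‖)) :=
    summ_mul_pow hs 1 (‖t‖ + 1)
  refine hasDerivAt_tsum_of_isPreconnected (g := fun m t => a m * cexp (t * z m))
    (g' := fun m t => a m * z m * cexp (t * z m)) (t := Metric.ball (0 : ℂ) (‖t‖ + 1))
    hu Metric.isOpen_ball (convex_ball _ _).isPreconnected ?_ ?_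
    (y₀ := t) (by simp) (summ_exp hs t) (by simp)
  · intro m y _
    have h1 : HasDerivAt (fun t : ℂ => t * z m) (z m) y := by
      simpa using (hasDerivAt_id y).mul_const (z m)
    have h2 := (h1.cexp).const_mul (a m)
    refine h2.congr_deriv ?_
    ring
  · intro m y hy
    rw [norm_mul, pow_one]
    refine mul_le_mul_of_nonneg_left ?_ (norm_nonneg _)
    rw [Complex.norm_exp]
    refine Real.exp_le_exp.mpr ((Complex.re_le_norm _).trans ?_)
    rw [norm_mul]
    refine mul_le_mul_of_nonneg_right ?_ (norm_nonneg _)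
    have := Metric.mem_ball.mp hy
    rw [dist_zero_right] at this
    exact this.le

theorem one_eq (k : ℕ) : ∀ {a z : α → ℂ} {b w : β → ℂ},
    (∀ R : ℝ, Summable (fun m => ‖a m‖ * Real.exp (R * ‖z m‖))) →
    (∀ R : ℝ, Summable (fun n => ‖b n‖ * Real.exp (R * ‖w n‖))) →
    (∀ t : ℂ, ∑' m, a m * cexp (t * z m) = ∑' n, b n * cexp (t * w n)) →
    ∑' m, a m * z m ^ k = ∑' n, b n * w n ^ k := by
  induction k with
  | zero =>
    intro a z b w _ _ h
    simpa using h 0
  | succ k ih =>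
    intro a z b w ha hb h
    have h1 : ∀ t : ℂ, ∑' m, a m * z m * cexp (t * z m) = ∑' n, b n * w n * cexp (t * w n) := by
      intro t
      have e1 := deriv_one ha t
      have e2 := deriv_one hb t
      rw [show (fun t => ∑' m, a m * cexp (t * z m)) = fun t => ∑' n, b n * cexp (t * w n) from
        funext h] at e1
      exact e1.unique e2
    have h2 := ih (a := fun m => a m * z m) (z := z) (b := fun n => b n * w n) (w := w)
      (fun R => by simpa using summ_mul_pow ha 1 R) (fun R => by simpa using summ_mul_pow hb 1 R) h1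
    calc ∑' m, a m * z m ^ (k + 1) = ∑' m, a m * z m * z m ^ k :=
          tsum_congr fun m => by ring
      _ = ∑' n, b n * w n * w n ^ k := h2
      _ = ∑' n, b n * w n ^ (k + 1) := tsum_congr fun m => by ring

theorem one_eq' {k : ℕ} {e : ℂ → ℂ}
    (he : (∀ t, e t = 1) ∨ (k ≤ 1 ∧ e 0 = 1 ∧ HasDerivAt e 0 0)) {a z : α → ℂ} {b w : β → ℂ}
    (ha : ∀ R : ℝ, Summable (fun m => ‖a m‖ * Real.exp (R * ‖z m‖)))
    (hb : ∀ R : ℝ, Summable (fun n => ‖b n‖ * Real.exp (R * ‖w n‖)))
    (h : ∀ t : ℂ, e t * ∑' m, a m * cexp (t * z m) = ∑' n, b n * cexp (t * w n)) :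
    ∑' m, a m * z m ^ k = ∑' n, b n * w n ^ k := by
  rcases he with he | ⟨hk, he, hd⟩
  · refine one_eq k ha hb (fun t => ?_)
    rw [← h t, he t, one_mul]
  · have h0 := h 0
    rw [he, one_mul] at h0
    interval_cases k
    · simpa using h0
    · have e1 := hd.mul (deriv_one ha 0)
      have e2 := deriv_one hb 0
      have e3 : (e * fun t => ∑' m, a m * cexp (t * z m)) =
          fun t => ∑' n, b n * cexp (t * w n) := funext fun t => by
        simpa using h t
      rw [e3] at e1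
      have e4 := e1.unique e2
      rw [he] at e4
      simpa using e4

end OneVar

/-! ### Several variables -/

section Several

variable {P α β : Type*} [Fintype P] [DecidableEq P]

omit [DecidableEq P] in
theorem prod_pow_le (s : Finset P) (k : P → ℕ) (z : P → ℂ) :
    ‖∏ v ∈ s, z v ^ k v‖ ≤ Real.exp ((∑ v, (k v : ℝ)) * ∑ v, ‖z v‖) := by
  rw [norm_prod]
  have h1 : ∀ v ∈ s, ‖z v ^ k v‖ ≤ Real.exp (k v * ∑ u, ‖z u‖) := by
    intro v _
    rw [norm_pow]
    refine (pow_le_exp_mul (norm_nonneg _) _).trans (Real.exp_le_exp.mpr ?_)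
    exact mul_le_mul_of_nonneg_left
      (Finset.single_le_sum (f := fun v => ‖z v‖) (fun _ _ => norm_nonneg _)
        (Finset.mem_univ v)) (Nat.cast_nonneg _)
  refine (Finset.prod_le_prod (fun _ _ => norm_nonneg _) h1).trans ?_
  rw [← Real.exp_sum]
  refine Real.exp_le_exp.mpr ?_
  rw [← Finset.sum_mul]
  refine mul_le_mul_of_nonneg_right ?_ (Finset.sum_nonneg fun _ _ => norm_nonneg _)
  exact Finset.sum_le_sum_of_subset_of_nonneg (Finset.subset_univ _)
    (fun _ _ _ => Nat.cast_nonneg _)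

omit [DecidableEq P] in
theorem summ_prod {a : α → ℂ} {z : α → P → ℂ}
    (hs : ∀ R : ℝ, Summable (fun m => ‖a m‖ * Real.exp (R * ∑ v, ‖z m v‖)))
    (s : Finset P) (k : P → ℕ) (R : ℝ) :
    Summable (fun m => ‖a m * ∏ v ∈ s, z m v ^ k v‖ * Real.exp (R * ∑ v, ‖z m v‖)) := by
  refine Summable.of_nonneg_of_le (fun m => by positivity) (fun m => ?_)
    (hs ((∑ v, (k v : ℝ)) + R))
  rw [norm_mul, mul_assoc]
  refine mul_le_mul_of_nonneg_left ?_ (norm_nonneg _)
  rw [add_mul, Real.exp_add]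
  exact mul_le_mul_of_nonneg_right (prod_pow_le s k (z m)) (Real.exp_pos _).le

omit [DecidableEq P] in
theorem sum_bd (ζ z : P → ℂ) : ‖∑ v, ζ v * z v‖ ≤ (∑ v, ‖ζ v‖) * ∑ v, ‖z v‖ := by
  refine (norm_sum_le _ _).trans ?_
  rw [Finset.sum_mul]
  refine Finset.sum_le_sum fun v _ => ?_
  rw [norm_mul]
  exact mul_le_mul_of_nonneg_left
    (Finset.single_le_sum (f := fun v => ‖z v‖) (fun _ _ => norm_nonneg _)
      (Finset.mem_univ v)) (norm_nonneg _)

/-- a shift in one coordinate -/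
def sft (ζ : P → ℂ) (v : P) (t : ℂ) : P → ℂ := fun u => ζ u + if u = v then t else 0

theorem all_eq {ε : P → ℂ} {k : P → ℕ} (hε : ∀ v, ε v = 0 ∨ k v ≤ 1)
    {a : α → ℂ} {z : α → P → ℂ} {b : β → ℂ} {w : β → P → ℂ}
    (ha : ∀ R : ℝ, Summable (fun m => ‖a m‖ * Real.exp (R * ∑ v, ‖z m v‖)))
    (hb : ∀ R : ℝ, Summable (fun n => ‖b n‖ * Real.exp (R * ∑ v, ‖w n v‖)))
    (h : ∀ ζ : P → ℂ, cexp (-Real.pi * ∑ v, ε v * ζ v ^ 2) *
      ∑' m, a m * cexp (∑ v, ζ v * z m v) = ∑' n, b n * cexp (∑ v, ζ v * w n v))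
    (s : Finset P) : ∀ ζ : P → ℂ, (∀ v ∈ s, ζ v = 0) →
      cexp (-Real.pi * ∑ v, ε v * ζ v ^ 2) *
      ∑' m, (a m * ∏ v ∈ s, z m v ^ k v) * cexp (∑ v, ζ v * z m v) =
        ∑' n, (b n * ∏ v ∈ s, w n v ^ k v) * cexp (∑ v, ζ v * w n v) := by
  induction s using Finset.induction_on with
  | empty => intro ζ _; simpa using h ζ
  | insert v s hv ih =>
    intro ζ hζ
    have hζv : ζ v = 0 := hζ v (Finset.mem_insert_self v s)
    -- the curve
    have hc : ∀ t : ℂ, ∀ u ∈ s, (sft ζ v t) u = 0 := by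
      intro t u hu
      have huv : u ≠ v := fun hh => hv (hh ▸ hu)
      simp [sft, hζ u (Finset.mem_insert_of_mem hu), huv]
    have hlin : ∀ (t : ℂ) (x : P → ℂ), ∑ u, (sft ζ v t) u * x u =
        (∑ u, ζ u * x u) + t * x v := by
      intro t x
      have : ∀ u, (sft ζ v t) u * x u = ζ u * x u + if u = v then t * x v else 0 := by
        intro u
        by_cases hu : u = v
        · subst hu; simp [sft, add_mul]
        · simp [sft, hu]
      rw [Finset.sum_congr rfl fun u _ => this u, Finset.sum_add_distrib]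
      simp
    have hqu : ∀ t : ℂ, ∑ u, ε u * (sft ζ v t) u ^ 2 =
        (∑ u, ε u * ζ u ^ 2) + ε v * t ^ 2 := by
      intro t
      have : ∀ u, ε u * (sft ζ v t) u ^ 2 =
          ε u * ζ u ^ 2 + if u = v then ε v * t ^ 2 else 0 := by
        intro u
        by_cases hu : u = v
        · subst hu; simp [sft, hζv]
        · simp [sft, hu]
      rw [Finset.sum_congr rfl fun u _ => this u, Finset.sum_add_distrib]
      simp
    -- one variable
    have ha' : ∀ R : ℝ, Summable (fun m => ‖cexp (-Real.pi * ∑ u, ε u * ζ u ^ 2) *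
        (a m * ∏ u ∈ s, z m u ^ k u) * cexp (∑ u, ζ u * z m u)‖ *
          Real.exp (R * ‖z m v‖)) := by
      intro R
      have h1 := (summ_prod ha s k ((∑ v, ‖ζ v‖) + |R|)).mul_left
        ‖cexp (-Real.pi * ∑ u, ε u * ζ u ^ 2)‖
      refine Summable.of_nonneg_of_le (fun m => by positivity) (fun m => ?_) h1
      rw [norm_mul, norm_mul, mul_assoc, mul_assoc]
      refine mul_le_mul_of_nonneg_left ?_ (norm_nonneg _)
      refine mul_le_mul_of_nonneg_left ?_ (norm_nonneg _)
      rw [Complex.norm_exp, ← Real.exp_add]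
      refine Real.exp_le_exp.mpr ?_
      rw [add_mul]
      refine add_le_add ((Complex.re_le_norm _).trans (sum_bd _ _)) ?_
      exact mul_le_mul (le_abs_self R) (Finset.single_le_sum (f := fun v => ‖z m v‖)
        (fun _ _ => norm_nonneg _) (Finset.mem_univ v)) (norm_nonneg _) (abs_nonneg _)
    have hb' : ∀ R : ℝ, Summable (fun n =>
        ‖(b n * ∏ u ∈ s, w n u ^ k u) * cexp (∑ u, ζ u * w n u)‖ *
          Real.exp (R * ‖w n v‖)) := by
      intro R
      have h1 := (summ_prod hb s k ((∑ v, ‖ζ v‖) + |R|))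
      refine Summable.of_nonneg_of_le (fun m => by positivity) (fun m => ?_) h1
      rw [norm_mul, mul_assoc]
      refine mul_le_mul_of_nonneg_left ?_ (norm_nonneg _)
      rw [Complex.norm_exp, ← Real.exp_add]
      refine Real.exp_le_exp.mpr ?_
      rw [add_mul]
      refine add_le_add ((Complex.re_le_norm _).trans (sum_bd _ _)) ?_
      exact mul_le_mul (le_abs_self R) (Finset.single_le_sum (f := fun v => ‖w m v‖)
        (fun _ _ => norm_nonneg _) (Finset.mem_univ v)) (norm_nonneg _) (abs_nonneg _)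
    have he : (∀ t : ℂ, cexp (-Real.pi * (ε v * t ^ 2)) = 1) ∨
        (k v ≤ 1 ∧ cexp (-Real.pi * (ε v * (0 : ℂ) ^ 2)) = 1 ∧
          HasDerivAt (fun t : ℂ => cexp (-Real.pi * (ε v * t ^ 2))) 0 0) := by
      rcases hε v with h0 | h0
      · left
        intro t
        simp [h0]
      · right
        refine ⟨h0, by simp, ?_⟩
        have h1 : HasDerivAt (fun t : ℂ => -Real.pi * (ε v * t ^ 2))
            (-Real.pi * (ε v * (2 * (0 : ℂ)))) 0 := by
          have := ((hasDerivAt_pow 2 (0 : ℂ)).const_mul (ε v)).const_mul (-Real.pi : ℂ)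
          simpa using this
        have h2 := h1.cexp
        simpa using h2
    have key := one_eq' (k := k v) (e := fun t : ℂ => cexp (-Real.pi * (ε v * t ^ 2))) he
      (z := fun m => z m v) (w := fun n => w n v) ha' hb' (fun t => by
        have h1 := ih (sft ζ v t) (hc t)
        rw [hqu t] at h1
        have h2 : ∀ m, (a m * ∏ v ∈ s, z m v ^ k v) *
            cexp (∑ u, (sft ζ v t) u * z m u) =
            (a m * ∏ v ∈ s, z m v ^ k v) * cexp (∑ u, ζ u * z m u) * cexp (t * z m v) := by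
          intro m
          rw [hlin, Complex.exp_add]
          ring
        have h3 : ∀ m, (b m * ∏ v ∈ s, w m v ^ k v) *
            cexp (∑ u, (sft ζ v t) u * w m u) =
            (b m * ∏ v ∈ s, w m v ^ k v) * cexp (∑ u, ζ u * w m u) * cexp (t * w m v) := by
          intro m
          rw [hlin, Complex.exp_add]
          ring
        rw [tsum_congr h2, tsum_congr h3, mul_add, Complex.exp_add] at h1
        rw [← h1]
        have h4 : ∀ m, cexp (-Real.pi * ∑ u, ε u * ζ u ^ 2) *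
            (a m * ∏ u ∈ s, z m u ^ k u) * cexp (∑ u, ζ u * z m u) * cexp (t * z m v) =
            cexp (-Real.pi * ∑ u, ε u * ζ u ^ 2) *
            ((a m * ∏ u ∈ s, z m u ^ k u) * cexp (∑ u, ζ u * z m u) * cexp (t * z m v)) :=
          fun m => by ring
        rw [tsum_congr h4, tsum_mul_left]
        ring)
    have h5 : ∀ m, (a m * ∏ u ∈ insert v s, z m u ^ k u) * cexp (∑ u, ζ u * z m u) =
        (a m * ∏ u ∈ s, z m u ^ k u) * cexp (∑ u, ζ u * z m u) * z m v ^ k v := by
      intro m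
      rw [Finset.prod_insert hv]
      ring
    have h6 : ∀ m, (b m * ∏ u ∈ insert v s, w m u ^ k u) * cexp (∑ u, ζ u * w m u) =
        (b m * ∏ u ∈ s, w m u ^ k u) * cexp (∑ u, ζ u * w m u) * w m v ^ k v := by
      intro m
      rw [Finset.prod_insert hv]
      ring
    rw [tsum_congr h5, tsum_congr h6, ← key, ← tsum_mul_left]
    exact tsum_congr fun m => by ring

theorem all_eq' {ε : P → ℂ} {k : P → ℕ} (hε : ∀ v, ε v = 0 ∨ k v ≤ 1)
    {a : α → ℂ} {z : α → P → ℂ} {b : β → ℂ} {w : β → P → ℂ}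
    (ha : ∀ R : ℝ, Summable (fun m => ‖a m‖ * Real.exp (R * ∑ v, ‖z m v‖)))
    (hb : ∀ R : ℝ, Summable (fun n => ‖b n‖ * Real.exp (R * ∑ v, ‖w n v‖)))
    (h : ∀ ζ : P → ℂ, cexp (-Real.pi * ∑ v, ε v * ζ v ^ 2) *
      ∑' m, a m * cexp (∑ v, ζ v * z m v) = ∑' n, b n * cexp (∑ v, ζ v * w n v)) :
      ∑' m, a m * ∏ v, z m v ^ k v = ∑' n, b n * ∏ v, w n v ^ k v := by
  have := all_eq hε ha hb h Finset.univ (fun _ => 0) (fun _ _ => rfl)
  simpa using this

end Several


/-! ### Summability -/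

section Signs

variable {ι α : Type*} [Fintype ι] [DecidableEq ι]

/-- the sign of a subset -/
def sg (s : Finset ι) (i : ι) : ℝ := if i ∈ s then 1 else -1

theorem exp_abs_le (R : ℝ) (x : ι → ℝ) :
    Real.exp (R * ∑ i, |x i|) ≤ ∑ s : Finset ι, Real.exp (R * ∑ i, sg s i * x i) := by
  have h1 : ∀ i ∈ (Finset.univ : Finset ι), Real.exp (R * |x i|) ≤
      Real.exp (R * x i) + Real.exp (R * -x i) := by
    intro i _
    rcases abs_cases (x i) with ⟨h, _⟩ | ⟨h, _⟩
    · rw [h]; linarith [Real.exp_pos (R * -x i)]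
    · rw [h]; linarith [Real.exp_pos (R * x i)]
  have h2 := Finset.prod_le_prod (fun i _ => (Real.exp_pos (R * |x i|)).le) h1
  rw [← Real.exp_sum, ← Finset.mul_sum, Finset.prod_add] at h2
  refine h2.trans (le_of_eq ?_)
  rw [Finset.powerset_univ]
  refine Finset.sum_congr rfl fun s _ => ?_
  rw [← Real.exp_sum, ← Real.exp_sum, ← Real.exp_add]
  have : R * ∑ i, sg s i * x i = (∑ i ∈ s, R * (sg s i * x i)) +
      ∑ i ∈ Finset.univ \ s, R * (sg s i * x i) := by
    rw [Finset.mul_sum, ← Finset.sum_sdiff (Finset.subset_univ s), add_comm]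
  rw [this]
  have e1 : ∑ i ∈ s, R * (sg s i * x i) = ∑ i ∈ s, R * x i :=
    Finset.sum_congr rfl fun i hi => by simp [sg, hi]
  have e2 : ∑ i ∈ Finset.univ \ s, R * (sg s i * x i) = ∑ i ∈ Finset.univ \ s, R * -x i :=
    Finset.sum_congr rfl fun i hi => by simp [sg, (Finset.mem_sdiff.mp hi).2]
  rw [e1, e2]

theorem summ_abs {g : α → ℝ} {u : α → ι → ℝ} (hg : ∀ m, 0 ≤ g m)
    (h : ∀ r : ι → ℝ, Summable (fun m => g m * Real.exp (∑ i, r i * u m i))) (R : ℝ) :
    Summable (fun m => g m * Real.exp (R * ∑ i, |u m i|)) := by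
  have h1 : Summable (fun m => ∑ s : Finset ι, g m * Real.exp (∑ i, (R * sg s i) * u m i)) :=
    summable_sum fun s _ => h _
  refine Summable.of_nonneg_of_le (fun m => mul_nonneg (hg m) (Real.exp_pos _).le)
    (fun m => ?_) h1
  rw [← Finset.mul_sum]
  refine mul_le_mul_of_nonneg_left ?_ (hg m)
  refine (exp_abs_le R (u m)).trans (le_of_eq ?_)
  refine Finset.sum_congr rfl fun s _ => ?_
  rw [Finset.mul_sum]
  congr 1
  exact Finset.sum_congr rfl fun i _ => by ring

end Signs

/-! ### The theorem -/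

section Main

variable {K : Type} [Field K] [NumberField K]

/-- the places as a sum type -/
abbrev PP (K : Type) [Field K] : Type :=
  {w : InfinitePlace K // w.IsReal} ⊕ {w : InfinitePlace K // w.IsComplex}

/-- the sign used at a complex place -/
noncomputable def se (k : InfinitePlace K → ℤ) (v : InfinitePlace K) : ℂ :=
  if 0 ≤ k v then 1 else -1

omit [NumberField K] in
theorem se_sq (k : InfinitePlace K → ℤ) (v : InfinitePlace K) : se k v ^ 2 = 1 := by
  unfold se; split_ifs <;> simp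

omit [NumberField K] in
theorem se_norm (k : InfinitePlace K → ℤ) (v : InfinitePlace K) : ‖se k v‖ = 1 := by
  unfold se; split_ifs <;> simp

/-- the linear forms -/
noncomputable def zz (k : InfinitePlace K → ℤ) (u : mixedEmbedding.index K → ℝ) : PP K → ℂ
  | Sum.inl v => ((u (Sum.inl v) : ℝ) : ℂ)
  | Sum.inr v => ((u (Sum.inr (v, 0)) : ℝ) : ℂ) + se k v.1 * I * ((u (Sum.inr (v, 1)) : ℝ) : ℂ)

/-- the exponents -/
def kk (k : InfinitePlace K → ℤ) : PP K → ℕ
  | Sum.inl v => (k v.1).natAbs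
  | Sum.inr v => (k v.1).natAbs

/-- the vector of the shift -/
noncomputable def ww (k : InfinitePlace K → ℤ) (ζ : PP K → ℂ) : mixedEmbedding.index K → ℂ
  | Sum.inl v => ζ (Sum.inl v)
  | Sum.inr (v, j) => ζ (Sum.inr v) * if j = 0 then 1 else se k v.1 * I

/-- the quadratic part -/
def ee : PP K → ℂ
  | Sum.inl _ => 1
  | Sum.inr _ => 0

open scoped Classical in
theorem hp_eq (k : InfinitePlace K → ℤ) (u : mixedEmbedding.index K → ℝ) :
    hp k u = ∏ v : PP K, zz k u v ^ kk k v := by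
  rw [Fintype.prod_sum_type]
  rfl

open scoped Classical in
theorem dk_eq (k : InfinitePlace K → ℤ) : dk K k = ∑ v : PP K, kk k v := by
  rw [Fintype.sum_sum_type]
  have h := Fintype.sum_subtype_add_sum_subtype (fun v : InfinitePlace K => v.IsReal)
    (fun v : InfinitePlace K => (k v).natAbs)
  rw [dk, ← h]
  congr 1
  refine Fintype.sum_equiv (Equiv.subtypeEquivRight fun v => not_isReal_iff_isComplex) _ _ ?_
  intro v
  rfl

open scoped Classical in
theorem ww_lin (k : InfinitePlace K → ℤ) (ζ : PP K → ℂ) (u : mixedEmbedding.index K → ℝ) :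
    ∑ i, ww k ζ i * ((u i : ℝ) : ℂ) = ∑ v : PP K, ζ v * zz k u v := by
  rw [Fintype.sum_sum_type, Fintype.sum_sum_type, Fintype.sum_prod_type]
  congr 1
  refine Finset.sum_congr rfl fun v _ => ?_
  rw [Fin.sum_univ_two]
  simp only [ww, zz]
  simp
  ring

open scoped Classical in
theorem ww_sq (k : InfinitePlace K → ℤ) (ζ : PP K → ℂ) :
    ∑ i, ww k ζ i ^ 2 = ∑ v : PP K, ee v * ζ v ^ 2 := by
  rw [Fintype.sum_sum_type, Fintype.sum_sum_type, Fintype.sum_prod_type]
  simp only [ww, ee, Fin.sum_univ_two]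
  congr 1
  · simp
  · refine Finset.sum_congr rfl fun v _ => ?_
    have := se_sq k v.1
    have hI := Complex.I_sq
    simp only [if_true, one_ne_zero, if_false, mul_one, zero_mul]
    calc ζ (Sum.inr v) ^ 2 + (ζ (Sum.inr v) * (se k v.1 * I)) ^ 2
        = ζ (Sum.inr v) ^ 2 * (1 + se k v.1 ^ 2 * I ^ 2) := by ring
      _ = 0 := by rw [this, hI]; ring

open scoped Classical in
theorem zz_norm (k : InfinitePlace K → ℤ) (u : mixedEmbedding.index K → ℝ) :
    ∑ v : PP K, ‖zz k u v‖ ≤ ∑ i, |u i| := by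
  rw [Fintype.sum_sum_type, Fintype.sum_sum_type, Fintype.sum_prod_type]
  refine add_le_add (Finset.sum_le_sum fun v _ => ?_) (Finset.sum_le_sum fun v _ => ?_)
  · simp [zz]
  · rw [Fin.sum_univ_two]
    simp only [zz]
    refine (norm_add_le _ _).trans (le_of_eq ?_)
    rw [norm_mul, norm_mul, se_norm, Complex.norm_I, Complex.norm_real, Complex.norm_real]
    simp


open scoped Classical in
/-- one half of the summability -/
theorem summ_half (k : InfinitePlace K → ℤ) {α : Type*} {a : α → ℂ} {g : α → ℝ}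
    {u : α → mixedEmbedding.index K → ℝ} (hg : ∀ m, 0 ≤ g m) (hag : ∀ m, ‖a m‖ ≤ g m)
    (h : ∀ r : mixedEmbedding.index K → ℝ,
      Summable (fun m => g m * Real.exp (∑ i, r i * u m i))) (c : ℂ) (R : ℝ) :
    Summable (fun m => ‖a m‖ * Real.exp (R * ∑ v : PP K, ‖c * zz k (u m) v‖)) := by
  have h1 := summ_abs hg h (|R| * ‖c‖)
  refine Summable.of_nonneg_of_le (fun m => by positivity) (fun m => ?_) h1
  refine mul_le_mul (hag m) (Real.exp_le_exp.mpr ?_) (Real.exp_pos _).le (hg m)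
  have h2 : ∑ v : PP K, ‖c * zz k (u m) v‖ = ‖c‖ * ∑ v : PP K, ‖zz k (u m) v‖ := by
    rw [Finset.mul_sum]
    exact Finset.sum_congr rfl fun v _ => norm_mul _ _
  have h3 : 0 ≤ ∑ v : PP K, ‖zz k (u m) v‖ := Finset.sum_nonneg fun _ _ => norm_nonneg _
  rw [h2, ← mul_assoc]
  calc R * ‖c‖ * ∑ v : PP K, ‖zz k (u m) v‖ ≤ |R| * ‖c‖ * ∑ v : PP K, ‖zz k (u m) v‖ :=
        mul_le_mul_of_nonneg_right (mul_le_mul_of_nonneg_right (le_abs_self R)
          (norm_nonneg c)) h3
    _ ≤ |R| * ‖c‖ * ∑ i, |u m i| :=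
        mul_le_mul_of_nonneg_left (zz_norm k (u m)) (by positivity)

open scoped Classical in
theorem summ_hp (k : InfinitePlace K → ℤ) {α : Type*} {g : α → ℝ}
    {u : α → mixedEmbedding.index K → ℝ} (hg : ∀ m, 0 ≤ g m)
    (h : ∀ r : mixedEmbedding.index K → ℝ,
      Summable (fun m => g m * Real.exp (∑ i, r i * u m i))) :
    Summable (fun m => ‖hp k (u m)‖ * g m) := by
  have h1 := summ_prod (a := fun m => ((g m : ℝ) : ℂ)) (z := fun m v => zz k (u m) v)
    (fun R => by
      have := summ_half (a := fun m => ((g m : ℝ) : ℂ)) k hg (fun m => by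
        rw [Complex.norm_real, Real.norm_of_nonneg (hg m)]) h 1 R
      simpa using this) Finset.univ (kk k) 0
  refine h1.congr fun m => ?_
  rw [hp_eq, norm_mul, Complex.norm_real, Real.norm_of_nonneg (hg m)]
  simp [mul_comm]

theorem pf_PM (hPX : U_PX) : U_PM := by
  intro K _ _ k hk A hA x₀
  classical
  -- the two families
  set u : (mixedEmbedding.index K → ℤ) → mixedEmbedding.index K → ℝ :=
    fun m => A.mulVec (fun i => (m i : ℝ) + x₀ i) with hu
  set q : (mixedEmbedding.index K → ℤ) → mixedEmbedding.index K → ℝ :=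
    fun m => (A⁻¹).transpose.mulVec (fun i => (m i : ℝ)) with hq
  set g : (mixedEmbedding.index K → ℤ) → ℝ :=
    fun m => Real.exp (-Real.pi * ∑ i, u m i ^ 2) with hgd
  set h : (mixedEmbedding.index K → ℤ) → ℝ :=
    fun m => Real.exp (-Real.pi * ∑ i, q m i ^ 2) with hhd
  have hpi : Real.pi ≠ 0 := Real.pi_ne_zero
  have hg1 : ∀ r : mixedEmbedding.index K → ℝ,
      Summable (fun m => g m * Real.exp (∑ i, r i * u m i)) := by
    intro r
    have h1 := (hPX (mixedEmbedding.index K) A hA x₀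
      (fun i => ((-(r i) / (2 * Real.pi) : ℝ) : ℂ))).1
    refine h1.congr fun m => ?_
    rw [Complex.norm_exp, hgd]
    simp only
    rw [← Real.exp_add]
    congr 1
    have e1 : (-(Real.pi : ℂ) * ∑ i, ((A.mulVec (fun i => (m i : ℝ) + x₀ i) i : ℝ) : ℂ) ^ 2 -
        2 * Real.pi * ∑ i, ((-(r i) / (2 * Real.pi) : ℝ) : ℂ) *
          ((A.mulVec (fun i => (m i : ℝ) + x₀ i) i : ℝ) : ℂ)) =
        ((-Real.pi * ∑ i, u m i ^ 2 + ∑ i, r i * u m i : ℝ) : ℂ) := by
      push_cast
      rw [sub_eq_add_neg]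
      congr 1
      rw [Finset.mul_sum, ← Finset.sum_neg_distrib]
      refine Finset.sum_congr rfl fun i _ => ?_
      have : (Real.pi : ℂ) ≠ 0 := by exact_mod_cast hpi
      field_simp
      rfl
    rw [e1, Complex.ofReal_re]
  have hh1 : ∀ r : mixedEmbedding.index K → ℝ,
      Summable (fun m => h m * Real.exp (∑ i, r i * q m i)) := by
    intro r
    have h1 := (hPX (mixedEmbedding.index K) A hA x₀
      (fun i => -I * ((r i / (2 * Real.pi) : ℝ) : ℂ))).2.1
    refine h1.congr fun m => ?_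
    rw [Complex.norm_exp, hhd]
    simp only
    rw [← Real.exp_add]
    congr 1
    have e1 : (-(Real.pi : ℂ) * ∑ i,
        (((A⁻¹).transpose.mulVec (fun i => (m i : ℝ)) i : ℝ) : ℂ) ^ 2 +
        2 * Real.pi * I * ∑ i, (-I * ((r i / (2 * Real.pi) : ℝ) : ℂ)) *
          (((A⁻¹).transpose.mulVec (fun i => (m i : ℝ)) i : ℝ) : ℂ)) =
        ((-Real.pi * ∑ i, q m i ^ 2 + ∑ i, r i * q m i : ℝ) : ℂ) := by
      push_cast
      congr 1
      rw [Finset.mul_sum]
      refine Finset.sum_congr rfl fun i _ => ?_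
      have : (Real.pi : ℂ) ≠ 0 := by exact_mod_cast hpi
      have hI := Complex.I_mul_I
      field_simp
      linear_combination (-(r i : ℂ) * ((q m i : ℝ) : ℂ)) * hI
    rw [e1, Complex.ofReal_re]
  have hg0 : ∀ m, 0 ≤ g m := fun m => (Real.exp_pos _).le
  have hh0 : ∀ m, 0 ≤ h m := fun m => (Real.exp_pos _).le
  refine ⟨summ_hp k hg0 hg1, summ_hp k hh0 hh1, ?_⟩
  -- the identity
  set c : (mixedEmbedding.index K → ℤ) → ℂ :=
    fun m => cexp ((2 * Real.pi * (∑ i, (m i : ℝ) * x₀ i) : ℝ) * I) with hc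
  set D : ℂ := ((|A.det|⁻¹ : ℝ) : ℂ) with hD
  have key := all_eq' (ε := (ee : PP K → ℂ)) (k := kk k)
    (a := fun m => ((g m : ℝ) : ℂ)) (z := fun m v => (-2 * Real.pi : ℂ) * zz k (u m) v)
    (b := fun m => D * (c m * ((h m : ℝ) : ℂ)))
    (w := fun m v => (2 * Real.pi * I : ℂ) * zz k (q m) v)
    (by
      rintro (v | v)
      · right
        rcases hk v.1 v.2 with h0 | h0 <;> simp [kk, h0]
      · left; rfl)
    (fun R => summ_half k hg0 (fun m => by
        rw [Complex.norm_real, Real.norm_of_nonneg (hg0 m)]) hg1 _ R)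
    (fun R => summ_half (g := fun m => ‖D‖ * h m) k
      (fun m => mul_nonneg (norm_nonneg _) (hh0 m)) (fun m => by
        rw [norm_mul, norm_mul, hc, Complex.norm_exp_ofReal_mul_I, one_mul,
          Complex.norm_of_nonneg (hh0 m)])
      (fun r => by
        refine ((hh1 r).mul_left ‖D‖).congr fun m => ?_
        ring) _ R)
    (fun ζ => by
      have h3 := (hPX (mixedEmbedding.index K) A hA x₀ (ww k ζ)).2.2
      rw [ww_sq] at h3
      have e1 : ∀ m : mixedEmbedding.index K → ℤ, cexp (-Real.pi * ∑ i,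
          ((A.mulVec (fun i => (m i : ℝ) + x₀ i) i : ℝ) : ℂ) ^ 2 - 2 * Real.pi * ∑ i,
          ww k ζ i * ((A.mulVec (fun i => (m i : ℝ) + x₀ i) i : ℝ) : ℂ)) =
          ((g m : ℝ) : ℂ) * cexp (∑ v, ζ v * ((-2 * Real.pi : ℂ) * zz k (u m) v)) := by
        intro m
        rw [ww_lin k ζ (A.mulVec (fun i => (m i : ℝ) + x₀ i)), hgd]
        simp only
        rw [Complex.ofReal_exp, ← Complex.exp_add]
        congr 1
        push_cast
        rw [sub_eq_add_neg]
        congr 1
        rw [Finset.mul_sum, ← Finset.sum_neg_distrib]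
        refine Finset.sum_congr rfl fun i _ => ?_
        ring
      have e2 : ∀ m : mixedEmbedding.index K → ℤ,
          cexp ((2 * Real.pi * (∑ i, (m i : ℝ) * x₀ i) : ℝ) * I) * cexp (-Real.pi * ∑ i,
          (((A⁻¹).transpose.mulVec (fun i => (m i : ℝ)) i : ℝ) : ℂ) ^ 2 +
            2 * Real.pi * I * ∑ i, ww k ζ i *
            (((A⁻¹).transpose.mulVec (fun i => (m i : ℝ)) i : ℝ) : ℂ)) =
          c m * ((h m : ℝ) : ℂ) * cexp (∑ v, ζ v * ((2 * Real.pi * I : ℂ) * zz k (q m) v)) := by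
        intro m
        rw [ww_lin k ζ ((A⁻¹).transpose.mulVec (fun i => (m i : ℝ))), hhd, hc]
        simp only
        rw [Complex.ofReal_exp, mul_assoc (cexp _) (cexp _) (cexp _)]
        congr 1
        rw [← Complex.exp_add]
        congr 1
        push_cast
        congr 1
        rw [Finset.mul_sum]
        refine Finset.sum_congr rfl fun i _ => ?_
        ring
      rw [tsum_congr e1, tsum_congr e2] at h3
      rw [h3, ← tsum_mul_left]
      exact tsum_congr fun m => by ring)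
  have e3 : ∀ m : mixedEmbedding.index K → ℤ,
      ((g m : ℝ) : ℂ) * ∏ v, ((-2 * Real.pi : ℂ) * zz k (u m) v) ^ kk k v =
        (-2 * Real.pi : ℂ) ^ dk K k * (hp k (u m) * ((g m : ℝ) : ℂ)) := by
    intro m
    rw [hp_eq, dk_eq, ← Finset.prod_pow_eq_pow_sum]
    simp_rw [mul_pow]
    rw [Finset.prod_mul_distrib]
    ring
  have e4 : ∀ m : mixedEmbedding.index K → ℤ,
      D * (c m * ((h m : ℝ) : ℂ)) * ∏ v, ((2 * Real.pi * I : ℂ) * zz k (q m) v) ^ kk k v =
        D * (2 * Real.pi * I : ℂ) ^ dk K k * (c m * (hp k (q m) * ((h m : ℝ) : ℂ))) := by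
    intro m
    rw [hp_eq, dk_eq, ← Finset.prod_pow_eq_pow_sum]
    simp_rw [mul_pow (2 * Real.pi * I : ℂ)]
    rw [Finset.prod_mul_distrib]
    ring
  rw [tsum_congr e3, tsum_congr e4, tsum_mul_left, tsum_mul_left] at key
  have hne : (-2 * Real.pi : ℂ) ^ dk K k ≠ 0 := by
    apply pow_ne_zero
    have : (Real.pi : ℂ) ≠ 0 := by exact_mod_cast hpi
    exact mul_ne_zero (by norm_num) this
  have hrel : (2 * Real.pi * I : ℂ) ^ dk K k =
      (-2 * Real.pi : ℂ) ^ dk K k * (-I) ^ dk K k := by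
    rw [← mul_pow]
    congr 1
    ring
  rw [hrel] at key
  refine mul_left_cancel₀ hne ?_
  rw [key]
  ring

end Main

end Pool.Agent.H50.GLB
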